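import Pool.Agent.Helper17.SA.St2

/-!
# Project SA: module SYM
-/

set_option autoImplicit false

open scoped Pointwise

namespace Pool.Agent.Helper38.SA

open Equiv Pool.Agent.Helper17.SA

/-- an element that is not bad for any member of the family synchronizes the family -/
theorem sync_of_not_bad {G : Type} [Group G] {ι : Type} (p : ι → ℕ) (P : ∀ i, Sylow (p i) G) (x : G)
    (hx : ∀ i, ¬ Bad (P i : Subgroup G) x) (i : ι) :
    (P i : Subgroup G) ⊓ MulAut.conj x⁻¹ • (P i : Subgroup G) =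
      ⨅ Q : Sylow (p i) G, (Q : Subgroup G) := by
  have hbot : (P i : Subgroup G) ⊓ MulAut.conj x⁻¹ • (P i : Subgroup G) = ⊥ := by
    rw [eq_bot_iff]
    intro y hy
    obtain ⟨hy1, hy2⟩ := Subgroup.mem_inf.1 hy
    rw [Subgroup.mem_pointwise_smul_iff_inv_smul_mem] at hy2
    rw [Subgroup.mem_bot]
    by_contra hne
    refine hx i ⟨y, hy1, hne, ?_⟩
    have e : (MulAut.conj x⁻¹)⁻¹ • y = x * y * x⁻¹ := by
      rw [← map_inv, inv_inv]
      rfl
    rw [e] at hy2
    exact hy2
  refine le_antisymm ?_ ?_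
  · rw [hbot]; exact bot_le
  · refine le_inf (iInf_le _ (P i)) ?_
    have h1 := iInf_le (fun Q : Sylow (p i) G => (Q : Subgroup G)) (x⁻¹ • P i)
    exact h1

theorem pSYM : StTOT → StSY2 → StSYM := by
  classical
  intro hT hS m hm ι _ p hp hinj hstar P
  obtain ⟨b2, b3, b5, b7, hlt, h2, h3, h5, h7⟩ := hS m hm
  have : Fintype ι := Fintype.ofFinite ι
  have k2 : ∀ q : ℕ, q = 2 → ∀ Q : Sylow q (Perm (Fin m)), StarAt (Perm (Fin m)) q →
      bad (Q : Subgroup (Perm (Fin m))) ≤ b2 := by
    rintro _ rfl Q hQ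
    exact h2 Q hQ
  have hsum := hT m ι p (fun i => (P i : Subgroup (Perm (Fin m)))) b2 b3 b5 b7 hp hinj
    (fun i => (P i).isPGroup')
    (fun i hi => k2 (p i) hi (P i) (hstar i))
    (fun i hi => h3 _ (hi ▸ (P i).isPGroup'))
    (fun i hi => h5 _ (hi ▸ (P i).isPGroup'))
    (fun i hi => h7 _ (hi ▸ (P i).isPGroup'))
  have hlt2 : ∑ i, bad (P i : Subgroup (Perm (Fin m))) < m.factorial := lt_of_le_of_lt hsum hlt
  have hex : ∃ x : Perm (Fin m), ∀ i, ¬ Bad (P i : Subgroup (Perm (Fin m))) x := by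
    by_contra hcon
    push Not at hcon
    have hcov : (Finset.univ : Finset (Perm (Fin m))) ⊆
        Finset.univ.biUnion fun i => Finset.univ.filter fun x =>
          Bad (P i : Subgroup (Perm (Fin m))) x := by
      intro x _
      obtain ⟨i, hi⟩ := hcon x
      exact Finset.mem_biUnion.2 ⟨i, Finset.mem_univ _, Finset.mem_filter.2 ⟨Finset.mem_univ _, hi⟩⟩
    have hc1 := (Finset.card_le_card hcov).trans Finset.card_biUnion_le
    have hc2 : (Finset.univ : Finset (Perm (Fin m))).card = m.factorial := by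
      rw [Finset.card_univ, Fintype.card_perm, Fintype.card_fin]
    have hc3 : ∀ i, (Finset.univ.filter fun x : Perm (Fin m) =>
        Bad (P i : Subgroup (Perm (Fin m))) x).card = bad (P i : Subgroup (Perm (Fin m))) := by
      intro i
      unfold bad
      rw [Nat.card_eq_fintype_card, Fintype.card_subtype]
    rw [hc2, Finset.sum_congr rfl fun i _ => hc3 i] at hc1
    exact absurd hlt2 (not_lt.2 hc1)
  obtain ⟨x, hx⟩ := hex
  exact ⟨x, fun i => sync_of_not_bad p P x hx i⟩

end Pool.Agent.Helper38.SA
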