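import Pool.Agent.Helper17.SA.St3

/-!
# Module CHO of project SA, part 3: the choice along the lines
-/

set_option autoImplicit false

namespace Pool.Agent.Helper38.SA

open Equiv Pool.Agent.Helper17.SA

theorem line (LD : StLD) (Ω : Type) [Finite Ω] (p : ℕ) (K : Subgroup (Perm Ω)) (X : Ω → Type)
    (C : Type) (col : ∀ ω, X ω → C) (g : ∀ ω, Set (X ω)) (hp : p.Prime) (hK : IsPGroup p K)
    (n0 : ∀ ω, X ω) (hn0 : ∀ ω, n0 ω ∈ g ω)
    (hF : ∀ ω, ∃ F : Finset (X ω), (∀ n ∈ F, n ∈ g ω) ∧ F.card = kap p + 1 ∧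
      ∀ n ∈ F, ∀ n' ∈ F, col ω n = col ω n' → n = n') (o : Ω) :
    ∃ m : ∀ ω, X ω, (∀ ω, m ω ∈ g ω) ∧ m o = n0 o ∧
      ∀ y ∈ K, (∀ z ∈ K, col (y (z o)) (m (y (z o))) = col (z o) (m (z o))) →
        ∀ z ∈ K, y (z o) = z o := by
  classical
  choose F hFg hFc hFi using hF
  have ho : o ∈ MulAction.orbit K o := MulAction.mem_orbit_self o
  have hinj : ∀ ω, Set.InjOn (col ω) (F ω : Set (X ω)) := fun ω n hn n' hn' h =>
    hFi ω n hn n' hn' h
  obtain ⟨c, hc, hdist⟩ := LD p K (MulAction.orbit K o) C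
    (fun ω => if (ω : Ω) = o then {col o (n0 o)} else (F ω).image (col ω)) ⟨o, ho⟩ hp hK
    inferInstance
    (by
      intro ω hω
      have h1 : (ω : Ω) ≠ o := fun h => hω (Subtype.ext h)
      rw [if_neg h1, Finset.card_image_of_injOn (hinj _), hFc])
    (by rw [if_pos rfl]; exact Finset.singleton_nonempty _)
  have hex : ∀ ω : Ω, ∃ x : X ω, x ∈ g ω ∧ (∀ h : ω ∈ MulAction.orbit K o, col ω x = c ⟨ω, h⟩) ∧
      (ω = o → x = n0 ω) := by
    intro ω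
    by_cases h1 : ω = o
    · subst h1
      refine ⟨n0 ω, hn0 ω, fun h => ?_, fun _ => rfl⟩
      have := hc ⟨ω, h⟩
      rw [if_pos rfl, Finset.mem_singleton] at this
      exact this.symm
    · by_cases h : ω ∈ MulAction.orbit K o
      · have h2 := hc ⟨ω, h⟩
        rw [if_neg h1, Finset.mem_image] at h2
        obtain ⟨x, hx, hx2⟩ := h2
        exact ⟨x, hFg ω x hx, fun _ => hx2, fun h3 => absurd h3 h1⟩
      · exact ⟨n0 ω, hn0 ω, fun h2 => absurd h2 h, fun _ => rfl⟩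
  choose m hm1 hm2 hm3 using hex
  refine ⟨m, hm1, hm3 o rfl, fun y hy hcol z hz => ?_⟩
  have hq := hdist ⟨y, hy⟩ (by
    rintro ⟨ω, hω⟩
    obtain ⟨z', hz'⟩ := hω
    have h3 : (z' : Perm Ω) o = ω := hz'
    have h4 := hcol z' z'.2
    rw [hm2 (y ((z' : Perm Ω) o)) ⟨⟨y * z', K.mul_mem hy z'.2⟩, rfl⟩,
      hm2 ((z' : Perm Ω) o) ⟨z', rfl⟩] at h4
    subst h3
    exact h4)
  have h5 := hq ⟨z o, ⟨⟨z, hz⟩, rfl⟩⟩
  exact congrArg Subtype.val h5

theorem pCHO : StLD → StLIN → StCHO := by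
  intro LD LIN Ω _ ι _ p K X C col g hp hinj hK hcomm hg hF
  classical
  obtain ⟨B, hB1, hB2⟩ := LIN Ω ι p K hp hinj hK hcomm
  choose n0 hn0 using hg
  choose m hm1 hm2 hm3 using fun i o =>
    line LD Ω (p i) (K i) X (C i) (col i) g (hp i) (hK i) n0 hn0 (hF i) o
  have hex : ∀ ω : Ω, ∃ x : X ω, x ∈ g ω ∧ (∀ i, ∀ o ∈ B, ∀ z ∈ K i, z o = ω → x = m i o ω) := by
    intro ω
    by_cases h : ∃ i, ∃ o ∈ B, ∃ z ∈ K i, z o = ω ∧ ω ≠ o
    · obtain ⟨i, o, ho, z, hz, hzo, hne⟩ := h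
      refine ⟨m i o ω, hm1 i o ω, fun i' o' ho' z' hz' hzo' => ?_⟩
      have h1 := hB2 o ho o' ho' i i' z hz z' hz' (hzo.trans hzo'.symm)
      obtain ⟨h1, h2⟩ := h1
      subst h1
      rcases h2 with h2 | h2
      · subst h2; rfl
      · exact absurd (hzo.symm.trans h2) hne
    · refine ⟨n0 ω, hn0 ω, fun i o ho z hz hzo => ?_⟩
      have h1 : ω = o := by
        by_contra hne
        exact h ⟨i, o, ho, z, hz, hzo, hne⟩
      subst h1
      exact (hm2 i ω).symm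
  choose n hn1 hn2 using hex
  refine ⟨n, hn1, fun i y hy hcol => hB1 i y hy fun o ho => ?_⟩
  refine hm3 i o y hy fun z hz => ?_
  rw [← hn2 (y (z o)) i o ho (y * z) ((K i).mul_mem hy hz) rfl, ← hn2 (z o) i o ho z hz rfl]
  exact hcol (z o)

end Pool.Agent.Helper38.SA
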